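import Pool.Agent.H466.HF.EC4

/-!
# The heat flow (de Bruijn - Newman flow) of elliptic curve L-functions, uniformly in the curve

`E : y² = x³ + a x + b` is any elliptic curve over `ℚ`, `N` is its conductor and `f ∈ S_2(Γ₀(N))` is
the newform attached to `E` by the modularity theorem (Wiles, Taylor-Wiles,
Breuil-Conrad-Diamond-Taylor).  The completed function `Λ(E, s)` is the value at `λ = 0` of the
flow `Λ_λ(s) = ∫ f(i e^u / √N) e^(λ u² + s u) du`, which solves the backward heat equation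
(`∂/∂λ = ∂²/∂s²`).  The Riemann hypothesis for `L(E, s)` says that all the zeros of `Λ_0` lie on
`Re s = 1`; by a theorem of de Bruijn this holds for `Λ_λ`, `λ ≥ 1/8`.  We prove that a zero `s` of
`Λ_λ` is simple and lies on the line `Re s = 1` as soon as `λ log (N (1 + |Im s|)²) ≥ 1 + η`.

The proof: `Λ_λ` is the convolution of `Λ_0` with a Gaussian of variance `2 λ`.  On a horizontal line
`Im s = y` the functional equation turns `Λ_λ(1 + x + i y)` into `J(x) + w conj J(-x)` (up to a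
positive factor) with an integral `J` over a half line.  The saddle point of `J(x)`, `x ≥ 0`, lies at
distance about `x + λ log (N (1 + |y|)²)` to the right of the critical line, hence in the half plane
of absolute convergence, where a real version of Laplace's method with explicit error terms gives
`|J(x)| > |J(-x)|` for `x > 0` and the monotonicity of `|J|` near `x = 0`.
-/

open Complex MatrixGroups CongruenceSubgroup
open UpperHalfPlane hiding I

set_option autoImplicit false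

namespace Pool.Agent.Results.MP_553913_nt.HeatFlow

/-- The coefficient `a_p` of `E : y² = x³ + a x + b` at a prime `p ∤ 2 (4a³ + 27b²)`: `p` minus the
number of pairs `(x, y)` modulo `p` with `y² ≡ x³ + a x + b (mod p)`. -/
noncomputable def ap (a b : ℤ) (p : ℕ) : ℤ :=
  (p : ℤ) - (((Finset.range p ×ˢ Finset.range p).filter
    (fun xy : ℕ × ℕ => (p : ℤ) ∣ (xy.2 : ℤ) ^ 2 -
      ((xy.1 : ℤ) ^ 3 + a * (xy.1 : ℤ) + b))).card : ℤ)

/-- The `n`-th Fourier coefficient of `f`. -/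
noncomputable def coef {N : ℕ} (f : CuspForm (Gamma0 N : Subgroup (GL (Fin 2) ℝ)) 2) (n : ℕ) : ℂ :=
  (qExpansion 1 f).coeff n

/-- `f ∈ S_2(Γ₀(N))` is the newform of the elliptic curve `E : y² = x³ + a x + b`: the Fourier
coefficients `c(n)` of `f` are real with `c(1) = 1`, they satisfy the Hecke relations
`c(mn) = c(m) c(n)` for coprime `m`, `n` and `c(p^(j+2)) = c(p) c(p^(j+1)) - p c(p^j)` (without the
last term if `p ∣ N`), `f` is an eigenfunction of the Fricke involution: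
`f(-1/(Nτ)) = -w N τ² f(τ)` with `w = ±1`, `c(p) = a_p(E)` for all primes `p ∤ 2 (4a³ + 27b²)`,
`|c(p)| ≤ 2 √p` for all primes `p ∤ N` (Hasse) and `c(p) = 0, 1, -1` for the primes `p ∣ N`.
By the modularity theorem such an `f` exists for every `E`, with `N` the conductor. -/
structure IsFormOf (a b : ℤ) (N : ℕ) (f : CuspForm (Gamma0 N : Subgroup (GL (Fin 2) ℝ)) 2) :
    Prop where
  one : coef f 1 = 1
  real : ∀ n, (coef f n).im = 0
  mul : ∀ m n : ℕ, Nat.Coprime m n → coef f (m * n) = coef f m * coef f n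
  pow : ∀ p j : ℕ, p.Prime → coef f (p ^ (j + 2)) = coef f p * coef f (p ^ (j + 1)) -
      (if p ∣ N then 0 else (p : ℂ) * coef f (p ^ j))
  fricke : ∃ w : ℝ, (w = 1 ∨ w = -1) ∧ ∀ τ τ' : ℍ, (τ' : ℂ) * ((N : ℂ) * (τ : ℂ)) = -1 →
    f τ' = -(w : ℂ) * (N : ℂ) * (τ : ℂ) ^ 2 * f τ
  points : ∀ p : ℕ, p.Prime → ¬ (p : ℤ) ∣ 2 * (4 * a ^ 3 + 27 * b ^ 2) → coef f p = (ap a b p : ℂ)
  good : ∀ p : ℕ, p.Prime → ¬ p ∣ N → ‖coef f p‖ ≤ 2 * Real.sqrt p
  bad : ∀ p : ℕ, p.Prime → p ∣ N → coef f p = 0 ∨ coef f p = 1 ∨ coef f p = -1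

/-- The heat flow `Λ_λ(s) = ∫ f(i e^u / √N) e^(λ u² + s u) du` of the completed `L`-function
(`ofComplex` is the identity on the upper half plane). -/
noncomputable def Lam {N : ℕ} (f : CuspForm (Gamma0 N : Subgroup (GL (Fin 2) ℝ)) 2) (lam : ℝ)
    (s : ℂ) : ℂ :=
  ∫ u : ℝ, f (ofComplex (((Real.exp u / Real.sqrt N : ℝ) : ℂ) * I)) *
    cexp ((lam : ℂ) * (u : ℂ) ^ 2 + s * u)

/-! ### Translation from the analytic normalisation -/

theorem norm_lamf {N : ℕ} (f : CuspForm (Gamma0 N : Subgroup (GL (Fin 2) ℝ)) 2) (p : ℕ)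
    (hp : p.Prime) {B : ℝ} (h : ‖coef f p‖ ≤ B * Real.sqrt p) : |W388.lamf f p| ≤ B := by
  have hp0 : (0 : ℝ) < p := by exact_mod_cast hp.pos
  have e : ((p : ℝ) ^ ((((2 : ℤ) : ℝ) - 1) / 2)) = Real.sqrt p := by
    rw [Real.sqrt_eq_rpow]
    norm_num
  unfold W388.lamf
  rw [e, abs_div, abs_of_pos (Real.sqrt_pos.mpr hp0), div_le_iff₀ (Real.sqrt_pos.mpr hp0)]
  exact (Complex.abs_re_le_norm _).trans h

theorem Lam_eq {N : ℕ} (f : CuspForm (Gamma0 N : Subgroup (GL (Fin 2) ℝ)) 2) (lam : ℝ) (s : ℂ) :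
    Lam f lam s = Pool.Agent.H466.HF.LL (Pool.Agent.H466.HF.gE f) lam (s - 1) := by
  unfold Lam Pool.Agent.H466.HF.LL Pool.Agent.H466.HF.gE Pool.Agent.H466.HF.PhE
  refine MeasureTheory.integral_congr_ae (Filter.Eventually.of_forall fun u => ?_)
  simp only
  have e : cexp ((lam : ℂ) * (u : ℂ) ^ 2 + s * u) =
      ((Real.exp u : ℝ) : ℂ) * cexp ((lam : ℂ) * (u : ℂ) ^ 2 + (s - 1) * u) := by
    rw [Complex.ofReal_exp, ← Complex.exp_add]
    congr 1
    ring
  rw [e]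
  ring

/-- **Main theorem.** For all `η, K > 0` there is a constant `Q₀` with the following property.  Let
`E : y² = x³ + a x + b` be any elliptic curve over `ℚ` and let `f ∈ S_2(Γ₀(N))` be its newform.  All
the functions `Λ_λ = Lam f λ` are entire; `Λ_0(s) = (√N / 2π)^s Γ(s) ∑ c(n) n^(-s) = Λ(E, s)` for
`Re s > 3/2`; for `λ > 0`, `√(4πλ) Λ_λ(s) = ∫ Λ_0(s + v) e^(-v²/(4λ)) dv`; and if `0 < λ ≤ K` and `s` is a zero
of `Λ_λ` with `N (1 + |Im s|)² ≥ Q₀` and `λ log (N (1 + |Im s|)²) ≥ 1 + η`, then `Re s = 1` and the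
zero `s` is simple. -/
theorem result (η K : ℝ) (hη : 0 < η) (_hK : 0 < K) : ∃ Q₀ : ℝ,
    ∀ (a b : ℤ) (_hE : 4 * a ^ 3 + 27 * b ^ 2 ≠ 0) (N : ℕ) [NeZero N]
      (f : CuspForm (Gamma0 N : Subgroup (GL (Fin 2) ℝ)) 2) (_hf : IsFormOf a b N f),
    (∀ lam : ℝ, Differentiable ℂ (Lam f lam)) ∧
    (∀ s : ℂ, 3 / 2 < s.re → Lam f 0 s = ((Real.sqrt N / (2 * Real.pi) : ℝ) : ℂ) ^ s * Gamma s *
      ∑' n : ℕ, coef f n * (n : ℂ) ^ (-s)) ∧
    (∀ (lam : ℝ) (s : ℂ), 0 < lam → ((Real.sqrt (4 * Real.pi * lam) : ℝ) : ℂ) * Lam f lam s =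
      ∫ v : ℝ, Lam f 0 (s + v) * ((Real.exp (-v ^ 2 / (4 * lam)) : ℝ) : ℂ)) ∧
    ∀ (lam : ℝ) (s : ℂ), 0 < lam → lam ≤ K → Lam f lam s = 0 → Q₀ ≤ N * (1 + |s.im|) ^ 2 →
      1 + η ≤ lam * Real.log (N * (1 + |s.im|) ^ 2) → s.re = 1 ∧ deriv (Lam f lam) s ≠ 0 := by
  obtain ⟨Q0, H⟩ := Pool.Agent.H466.HF.newf_heat hη (K := max K 1) (le_max_right _ _)
  refine ⟨Real.exp Q0, fun a b _ N _ f hf => ?_⟩
  obtain ⟨w, hw, hfr⟩ := hf.fricke
  have hN0 : (0 : ℝ) ≤ (N : ℝ) := Nat.cast_nonneg N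
  have hsq : ((Real.sqrt N : ℝ) : ℂ) ^ 2 = (N : ℂ) := by
    have h1 : (Real.sqrt N) ^ 2 = (N : ℝ) := Real.sq_sqrt hN0
    exact_mod_cast congrArg (fun x : ℝ => (x : ℂ)) h1
  have hf' : W388.IsNewf N 2 f w := by
    refine ⟨hf.one, hf.real, hf.mul, ?_, hw, ?_⟩
    · intro p j hp
      have h1 := hf.pow p j hp
      unfold coef at h1
      rw [h1]
      norm_num
    · intro τ τ' h
      rw [hfr τ τ' h]
      congr 1
      have hI : Complex.I ^ 2 = -1 := Complex.I_sq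
      have : (((Real.sqrt N : ℝ) : ℂ) * (τ : ℂ) / Complex.I) ^ (2 : ℤ) = -((N : ℂ) * (τ : ℂ) ^ 2) := by
        rw [zpow_ofNat, div_pow, mul_pow, hsq, hI]
        ring
      rw [this]
      ring
  have hgood : ∀ p : ℕ, p.Prime → ¬ p ∣ N → |W388.lamf f p| ≤ 2 :=
    fun p hp hpN => norm_lamf f p hp (hf.good p hp hpN)
  have hbad : ∀ p : ℕ, p.Prime → p ∣ N → |W388.lamf f p| ≤ 1 := by
    intro p hp hpN
    refine norm_lamf f p hp ?_
    have h1 : (1 : ℝ) ≤ Real.sqrt p := by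
      rw [Real.one_le_sqrt]
      exact_mod_cast hp.one_le
    have h2 : ‖coef f p‖ ≤ 1 := by
      rcases hf.bad p hp hpN with h | h | h <;> simp [h]
    rw [one_mul]
    exact h2.trans h1
  obtain ⟨A, c, k⟩ := Pool.Agent.H466.HF.gE_kern f hf'
  have hfun : ∀ lam : ℝ, Lam f lam = fun s =>
      Pool.Agent.H466.HF.LL (Pool.Agent.H466.HF.gE f) lam (s - 1) :=
    fun lam => funext fun s => Lam_eq f lam s
  refine ⟨fun lam => ?_, fun s hs => ?_, fun lam s hlam => ?_, fun lam s h0 h1 hz h2 h3 => ?_⟩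
  · rw [hfun]
    exact (k.differentiable lam).comp (by fun_prop)
  · have hs' : 1 < (s - 1 / 2 : ℂ).re := by
      have : (s - 1 / 2 : ℂ).re = s.re - 1 / 2 := by simp
      rw [this]; linarith
    have h1 := Pool.Agent.H466.HF.LL_series hf' hs'
    have e1 : s - 1 / 2 - 1 / 2 = s - 1 := by ring
    have e2 : s - 1 / 2 + 1 / 2 = s := by ring
    rw [e1, e2] at h1
    rw [Lam_eq, h1]
    have hR := Pool.Agent.H466.HF.sqN_pos' (N := N)
    have hpi := Real.pi_pos
    have e3 : ((2 * Real.pi / Real.sqrt N : ℝ) : ℂ) ^ (-s) =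
        ((Real.sqrt N / (2 * Real.pi) : ℝ) : ℂ) ^ s := by
      rw [Pool.Agent.H466.HF.cpow_exp (by positivity : 0 < 2 * Real.pi / Real.sqrt N),
        Pool.Agent.H466.HF.cpow_exp (by positivity : 0 < Real.sqrt N / (2 * Real.pi))]
      congr 1
      rw [← inv_div (Real.sqrt N) (2 * Real.pi), Real.log_inv]
      push_cast
      ring
    have e4 : ∀ n : ℕ, (W388.lamf f n : ℂ) * (n : ℂ) ^ (-(s - 1 / 2)) = coef f n * (n : ℂ) ^ (-s) := by
      intro n
      unfold coef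
      rcases eq_or_ne n 0 with hn | hn
      · rw [hn, W388.coeff_zero, (W388.heckeSeq_lamf hf').zero]
        simp
      · have hnc : (n : ℂ) ≠ 0 := by exact_mod_cast hn
        rw [W388.lamf_eq hf' n hn, mul_assoc, ← Complex.cpow_add _ _ hnc]
        congr 2
        push_cast
        ring
    rw [e3, tsum_congr e4]
    ring
  · have h1 := k.heat_eq hlam (s - 1)
    have e1 : Real.pi * (4 * lam) = 4 * Real.pi * lam := by ring
    rw [e1] at h1
    rw [Lam_eq, ← h1]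
    unfold Pool.Agent.H466.HF.heat
    refine MeasureTheory.integral_congr_ae (Filter.Eventually.of_forall fun v => ?_)
    simp only
    rw [Lam_eq]
    have e2 : s - 1 + v = s + v - 1 := by ring
    rw [e2]
  · have him : (s - 1 : ℂ).im = s.im := by simp
    have hre : (s - 1 : ℂ).re = s.re - 1 := by simp
    have hNpos : (0 : ℝ) < N := by
      exact_mod_cast Nat.pos_of_ne_zero (NeZero.ne N)
    have hpos : 0 < (N : ℝ) * (1 + |s.im|) ^ 2 := by positivity
    have h4 : Q0 ≤ Real.log (N * (1 + |s.im|) ^ 2) := (Real.le_log_iff_exp_le hpos).mpr h2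
    have h5 := H N f w hf' hgood hbad lam h0 (h1.trans (le_max_left _ _)) (s - 1)
      (by rw [← Lam_eq]; exact hz) (by rw [him]; exact h4) (by rw [him]; exact h3)
    refine ⟨by rw [hre] at h5; linarith [h5.1], ?_⟩
    rw [hfun lam]
    have h6 : HasDerivAt (fun s => Pool.Agent.H466.HF.LL (Pool.Agent.H466.HF.gE f) lam (s - 1))
        (deriv (Pool.Agent.H466.HF.LL (Pool.Agent.H466.HF.gE f) lam) (s - 1)) s :=
      ((k.differentiable lam (s - 1)).hasDerivAt).comp_sub_const s 1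
    rw [h6.deriv]
    exact h5.2

end Pool.Agent.Results.MP_553913_nt.HeatFlow
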