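import Pool.Agent.H466.HF.EC4
import Pool.Agent.H466.JE.P8

/-!
# The Jensen polynomials of elliptic curve L-functions, uniformly in the curve

`E : y² = x³ + a x + b` is any elliptic curve over `ℚ`, `N` is its conductor and `f ∈ S_2(Γ₀(N))` is
the newform attached to `E` by the modularity theorem (Wiles, Taylor-Wiles,
Breuil-Conrad-Diamond-Taylor).  The Jensen polynomial of degree `d` and shift `n` of `Λ(E, s)` at the
central point is
`J^{d,n}(X) = ∑_{j ≤ d} (d choose j) i^j Λ^{(n+j)}(E, 1) X^j`,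
that is, up to the factor `i^n`, the Jensen polynomial of the `n`-th derivative of the real (or purely
imaginary) entire function `Ξ(x) = Λ(E, 1 + i x)`.

1. (The criterion of Jensen and Pólya.)  The Riemann hypothesis for `L(E, s)` holds if and only if all
the polynomials `J^{d,n}`, `d, n ≥ 0`, have only real zeros or vanish identically.
2. (Main theorem.)  For every `η > 0` there is a constant `C` with: for ALL elliptic curves `E` over
`ℚ`, all `d ≥ 1` and all `n ≥ (1/4 + η) log (N d) + C` the polynomial `J^{d,n}` is not zero and has only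
real zeros.

Proof.  By the theorem of the library on high derivatives (`H353R7`), the zeros of `Ξ^{(n)}` with real
part at most `R` are real and simple if `n ≥ (1/4 + η) log (N (1 + R)²) + C₀`, and all the zeros of
`Ξ^{(n)}` lie in the strip `|Im z| ≤ 1`.  So the zeros which are not real lie in the sector
`d y² < x²` if `R² > d`.  It is shown here (modules `Pool.Agent.H466.JE`) that for a real entire
function of order less than two with this property the Jensen polynomials of degree at most `d` have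
only real zeros.  This is reduced, by the factorisation of the function in large discs, to the
following fact on polynomials: if `p` has degree at most `d` and only real zeros and `d y² < c²`, then
`((D - c)² + y²) p` has only real zeros, `D = d/dx`.  Indeed with `F = e^(-c x) p` it is
`e^(c x) (F'' + y² F)`, and at the critical points `ξ` of `F` we have
`-F''/F = ∑ 1/(ξ - x_j)² ≥ c²/d > y²`, so that `F'' + y² F` changes its sign between consecutive
critical points.
-/

open Complex MatrixGroups CongruenceSubgroup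
open UpperHalfPlane hiding I

set_option autoImplicit false

namespace Pool.Agent.Results.MP_553913_nt.JensenPolynomials

/-- The coefficient `a_p` of `E : y² = x³ + a x + b` at a prime `p ∤ 2 (4a³ + 27b²)`: `p` minus the
number of pairs `(x, y)` modulo `p` with `y² ≡ x³ + a x + b (mod p)`. -/
noncomputable def ap (a b : ℤ) (p : ℕ) : ℤ :=
  (p : ℤ) - (((Finset.range p ×ˢ Finset.range p).filter
    (fun xy : ℕ × ℕ => (p : ℤ) ∣ (xy.2 : ℤ) ^ 2 -
      ((xy.1 : ℤ) ^ 3 + a * (xy.1 : ℤ) + b))).card : ℤ)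

/-- The `n`-th Fourier coefficient of `f`. -/
noncomputable def coef {N : ℕ} (f : CuspForm (Gamma0 N : Subgroup (GL (Fin 2) ℝ)) 2) (n : ℕ) : ℂ :=
  (qExpansion 1 f).coeff n

/-- `f ∈ S_2(Γ₀(N))` is the newform of the elliptic curve `E : y² = x³ + a x + b`: the Fourier
coefficients `c(n)` of `f` are real with `c(1) = 1`, they satisfy the Hecke relations
`c(mn) = c(m) c(n)` for coprime `m`, `n` and `c(p^(j+2)) = c(p) c(p^(j+1)) - p c(p^j)` (without the
last term if `p ∣ N`), `f` is an eigenfunction of the Fricke involution: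
`f(-1/(Nτ)) = -w N τ² f(τ)` with `w = ±1`, `c(p) = a_p(E)` for all primes `p ∤ 2 (4a³ + 27b²)`,
`|c(p)| ≤ 2 √p` for all primes `p ∤ N` (Hasse) and `c(p) = 0, 1, -1` for the primes `p ∣ N`.
By the modularity theorem such an `f` exists for every `E`, with `N` the conductor. -/
structure IsFormOf (a b : ℤ) (N : ℕ) (f : CuspForm (Gamma0 N : Subgroup (GL (Fin 2) ℝ)) 2) :
    Prop where
  one : coef f 1 = 1
  real : ∀ n, (coef f n).im = 0
  mul : ∀ m n : ℕ, Nat.Coprime m n → coef f (m * n) = coef f m * coef f n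
  pow : ∀ p j : ℕ, p.Prime → coef f (p ^ (j + 2)) = coef f p * coef f (p ^ (j + 1)) -
      (if p ∣ N then 0 else (p : ℂ) * coef f (p ^ j))
  fricke : ∃ w : ℝ, (w = 1 ∨ w = -1) ∧ ∀ τ τ' : ℍ, (τ' : ℂ) * ((N : ℂ) * (τ : ℂ)) = -1 →
    f τ' = -(w : ℂ) * (N : ℂ) * (τ : ℂ) ^ 2 * f τ
  points : ∀ p : ℕ, p.Prime → ¬ (p : ℤ) ∣ 2 * (4 * a ^ 3 + 27 * b ^ 2) → coef f p = (ap a b p : ℂ)
  good : ∀ p : ℕ, p.Prime → ¬ p ∣ N → ‖coef f p‖ ≤ 2 * Real.sqrt p
  bad : ∀ p : ℕ, p.Prime → p ∣ N → coef f p = 0 ∨ coef f p = 1 ∨ coef f p = -1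

/-- The completed L-function `Λ(E, s) = ∫ f(i e^u / √N) e^(s u) du` (`ofComplex` is the identity on the
upper half plane). -/
noncomputable def Lam {N : ℕ} (f : CuspForm (Gamma0 N : Subgroup (GL (Fin 2) ℝ)) 2) (s : ℂ) : ℂ :=
  ∫ u : ℝ, f (ofComplex (((Real.exp u / Real.sqrt N : ℝ) : ℂ) * I)) * cexp (s * u)

/-- The Jensen polynomial `J^{d,n}(X) = ∑_{j ≤ d} (d choose j) i^j Λ^{(n+j)}(E, 1) X^j`. -/
noncomputable def jensen {N : ℕ} (f : CuspForm (Gamma0 N : Subgroup (GL (Fin 2) ℝ)) 2) (d n : ℕ) :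
    Polynomial ℂ :=
  ∑ j ∈ Finset.range (d + 1),
    Polynomial.C ((d.choose j : ℂ) * (I ^ j * iteratedDeriv (n + j) (Lam f) 1)) * Polynomial.X ^ j

/-- All complex zeros of the polynomial are real (and so it is not the zero polynomial). -/
def OnlyRealZeros (p : Polynomial ℂ) : Prop := ∀ z : ℂ, p.eval z = 0 → z.im = 0

/-! ### Translation from the analytic normalisation -/

theorem norm_lamf {N : ℕ} (f : CuspForm (Gamma0 N : Subgroup (GL (Fin 2) ℝ)) 2) (p : ℕ)
    (hp : p.Prime) {B : ℝ} (h : ‖coef f p‖ ≤ B * Real.sqrt p) : |W388.lamf f p| ≤ B := by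
  have hp0 : (0 : ℝ) < p := by exact_mod_cast hp.pos
  have e : ((p : ℝ) ^ ((((2 : ℤ) : ℝ) - 1) / 2)) = Real.sqrt p := by
    rw [Real.sqrt_eq_rpow]
    norm_num
  unfold W388.lamf
  rw [e, abs_div, abs_of_pos (Real.sqrt_pos.mpr hp0), div_le_iff₀ (Real.sqrt_pos.mpr hp0)]
  exact (Complex.abs_re_le_norm _).trans h

theorem Lam_eq {N : ℕ} (f : CuspForm (Gamma0 N : Subgroup (GL (Fin 2) ℝ)) 2) (s : ℂ) :
    Lam f s = Pool.Agent.H466.HF.LL (Pool.Agent.H466.HF.gE f) 0 (s - 1) := by
  unfold Lam Pool.Agent.H466.HF.LL Pool.Agent.H466.HF.gE Pool.Agent.H466.HF.PhE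
  refine MeasureTheory.integral_congr_ae (Filter.Eventually.of_forall fun u => ?_)
  simp only
  have e : cexp (s * u) = ((Real.exp u : ℝ) : ℂ) *
      cexp (((0 : ℝ) : ℂ) * (u : ℂ) ^ 2 + (s - 1) * u) := by
    rw [Complex.ofReal_exp, ← Complex.exp_add]
    congr 1
    push_cast
    ring
  rw [e]
  ring

theorem isNewf {a b : ℤ} {N : ℕ} [NeZero N] {f : CuspForm (Gamma0 N : Subgroup (GL (Fin 2) ℝ)) 2}
    (hf : IsFormOf a b N f) : ∃ w : ℝ, W388.IsNewf N 2 f w ∧
    (∀ p : ℕ, p.Prime → ¬ p ∣ N → |W388.lamf f p| ≤ 2) ∧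
    (∀ p : ℕ, p.Prime → p ∣ N → |W388.lamf f p| ≤ 1) := by
  obtain ⟨w, hw, hfr⟩ := hf.fricke
  have hN0 : (0 : ℝ) ≤ (N : ℝ) := Nat.cast_nonneg N
  have hsq : ((Real.sqrt N : ℝ) : ℂ) ^ 2 = (N : ℂ) := by
    have h1 : (Real.sqrt N) ^ 2 = (N : ℝ) := Real.sq_sqrt hN0
    exact_mod_cast congrArg (fun x : ℝ => (x : ℂ)) h1
  refine ⟨w, ⟨hf.one, hf.real, hf.mul, ?_, hw, ?_⟩,
    fun p hp hpN => norm_lamf f p hp (hf.good p hp hpN), ?_⟩
  · intro p j hp
    have h1 := hf.pow p j hp
    unfold coef at h1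
    rw [h1]
    norm_num
  · intro τ τ' h
    rw [hfr τ τ' h]
    congr 1
    have hI : Complex.I ^ 2 = -1 := Complex.I_sq
    have : (((Real.sqrt N : ℝ) : ℂ) * (τ : ℂ) / Complex.I) ^ (2 : ℤ) = -((N : ℂ) * (τ : ℂ) ^ 2) := by
      rw [zpow_ofNat, div_pow, mul_pow, hsq, hI]
      ring
    rw [this]
    ring
  · intro p hp hpN
    refine norm_lamf f p hp ?_
    have h1 : (1 : ℝ) ≤ Real.sqrt p := by
      rw [Real.one_le_sqrt]
      exact_mod_cast hp.one_le
    have h2 : ‖coef f p‖ ≤ 1 := by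
      rcases hf.bad p hp hpN with h | h | h <;> simp [h]
    rw [one_mul]
    exact h2.trans h1

section

variable {N : ℕ} [NeZero N] (f : CuspForm (Gamma0 N : Subgroup (GL (Fin 2) ℝ)) 2)

/-- the function of the library -/
noncomputable def XX (z : ℂ) : ℂ := ((N : ℝ) : ℂ) ^ (z / 2) * Pool.Agent.H466.HF.LamD f z

/-- the constant factor -/
noncomputable def cc (N : ℕ) : ℂ := 2 * ((N : ℝ) : ℂ) ^ (-1 / 4 : ℂ)

theorem cc_ne : cc N ≠ 0 := by
  unfold cc
  have hNc : ((N : ℝ) : ℂ) ≠ 0 := by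
    have : (N : ℝ) ≠ 0 := by exact_mod_cast NeZero.ne N
    exact_mod_cast this
  exact mul_ne_zero two_ne_zero (Complex.cpow_ne_zero_iff_of_exponent_ne_zero (by norm_num) |>.mpr hNc)

theorem XX_eq : XX f = fun z => cc N * Lam f (z + 1 / 2) := by
  funext z
  have hNc : ((N : ℝ) : ℂ) ≠ 0 := by
    have : (N : ℝ) ≠ 0 := by exact_mod_cast NeZero.ne N
    exact_mod_cast this
  unfold XX cc Pool.Agent.H466.HF.LamD
  rw [Lam_eq]
  have e1 : z + 1 / 2 - 1 = z - 1 / 2 := by ring
  have e2 : ((N : ℝ) : ℂ) ^ (-1 / 4 : ℂ) = ((N : ℝ) : ℂ) ^ (z / 2) * ((N : ℝ) : ℂ) ^ (-1 / 4 - z / 2 : ℂ) := by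
    rw [← Complex.cpow_add _ _ hNc]
    congr 1
    ring
  rw [e1, e2]
  ring

theorem XX_iter (hL : Differentiable ℂ (Lam f)) (k : ℕ) :
    iteratedDeriv k (XX f) (1 / 2) = cc N * iteratedDeriv k (Lam f) 1 := by
  rw [XX_eq]
  have h1 : ContDiffAt ℂ k (fun z => Lam f (z + 1 / 2)) (1 / 2) :=
    (hL.comp (by fun_prop : Differentiable ℂ fun z : ℂ => z + 1 / 2)).contDiff.contDiffAt
  have h2 := iteratedDeriv_const_mul (cc N) h1
  rw [h2, Pool.Agent.H466.JE.iter_shift (Lam f) (1 / 2) k (1 / 2)]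
  norm_num

theorem jensen_eq (hL : Differentiable ℂ (Lam f)) (d n : ℕ) :
    Pool.Agent.H466.JE.J0 (fun j => I ^ j * iteratedDeriv (n + j) (XX f) (1 / 2)) d =
      Polynomial.C (cc N) * jensen f d n := by
  unfold Pool.Agent.H466.JE.J0 jensen
  rw [Finset.mul_sum]
  refine Finset.sum_congr rfl fun j _ => ?_
  simp only [XX_iter f hL, Polynomial.C_mul]
  ring

theorem jensen_alt (hL : Differentiable ℂ (Lam f)) (d n : ℕ) :
    (Pool.Agent.H466.JE.J0 (fun j => I ^ j * iteratedDeriv (n + j) (XX f) (1 / 2)) d = 0 ↔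
      jensen f d n = 0) ∧
    (Pool.Agent.H466.JE.RR (Pool.Agent.H466.JE.J0
      (fun j => I ^ j * iteratedDeriv (n + j) (XX f) (1 / 2)) d) ↔ OnlyRealZeros (jensen f d n)) := by
  rw [jensen_eq f hL]
  have hc := cc_ne (N := N)
  constructor
  · rw [mul_eq_zero, Polynomial.C_eq_zero]
    exact ⟨fun h => h.resolve_left hc, Or.inr⟩
  · exact ⟨fun h => h.of_C_mul, fun h => Pool.Agent.H466.JE.RR.C_mul h hc⟩

end

/-- **Main theorem.**

1. Let `E : y² = x³ + a x + b` be any elliptic curve over `ℚ` and let `f ∈ S_2(Γ₀(N))` be its newform.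
Then `Λ(E, s) = Lam f s` is entire, it is `(√N / 2π)^s Γ(s) ∑ c(n) n^(-s)` for `Re s > 3/2`, and all its
zeros lie on the line `Re s = 1` (the Riemann hypothesis for `L(E, s)`) if and only if all the Jensen
polynomials `J^{d,n}` have only real zeros or vanish identically.
2. For every `η > 0` there is a constant `C` with: for all elliptic curves `E` over `ℚ`, all `d ≥ 1` and
all `n ≥ (1/4 + η) log (N d) + C` the Jensen polynomial `J^{d,n}` has only real zeros (and does not
vanish identically). -/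
theorem result :
    (∀ (a b : ℤ) (_hE : 4 * a ^ 3 + 27 * b ^ 2 ≠ 0) (N : ℕ) [NeZero N]
      (f : CuspForm (Gamma0 N : Subgroup (GL (Fin 2) ℝ)) 2) (_hf : IsFormOf a b N f),
      Differentiable ℂ (Lam f) ∧
      (∀ s : ℂ, 3 / 2 < s.re → Lam f s = ((Real.sqrt N / (2 * Real.pi) : ℝ) : ℂ) ^ s * Gamma s *
        ∑' n : ℕ, coef f n * (n : ℂ) ^ (-s)) ∧
      ((∀ s : ℂ, Lam f s = 0 → s.re = 1) ↔
        ∀ d n : ℕ, jensen f d n = 0 ∨ OnlyRealZeros (jensen f d n))) ∧
    (∀ η : ℝ, 0 < η → ∃ C : ℝ,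
      ∀ (a b : ℤ) (_hE : 4 * a ^ 3 + 27 * b ^ 2 ≠ 0) (N : ℕ) [NeZero N]
      (f : CuspForm (Gamma0 N : Subgroup (GL (Fin 2) ℝ)) 2) (_hf : IsFormOf a b N f) (d n : ℕ),
      1 ≤ d → (1 / 4 + η) * Real.log (N * d) + C ≤ n → OnlyRealZeros (jensen f d n)) := by
  have hdiff : ∀ (a b : ℤ) (N : ℕ) [NeZero N]
      (f : CuspForm (Gamma0 N : Subgroup (GL (Fin 2) ℝ)) 2), IsFormOf a b N f →
      Differentiable ℂ (Lam f) := by
    intro a b N _ f hf
    obtain ⟨w, hf', -, -⟩ := isNewf hf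
    obtain ⟨A, c, k⟩ := Pool.Agent.H466.HF.gE_kern f hf'
    have hfun : Lam f = fun s => Pool.Agent.H466.HF.LL (Pool.Agent.H466.HF.gE f) 0 (s - 1) :=
      funext fun s => Lam_eq f s
    rw [hfun]
    exact (k.differentiable 0).comp (by fun_prop)
  refine ⟨fun a b _ N _ f hf => ?_, fun η hη => ?_⟩
  · have hL := hdiff a b N f hf
    obtain ⟨w, hf', hgood, hbad⟩ := isNewf hf
    have D := Pool.Agent.H466.HF.datum_newf hf' hgood hbad
    have hcl := Pool.Agent.H466.JE.datum_GLc (m := 2) (by norm_num) (by norm_num) D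
    have hne := Pool.Agent.H466.JE.datum_iter_ne (m := 2) (by norm_num) le_rfl (by norm_num) D
    have hXX : (fun z => ((N : ℝ) : ℂ) ^ (z / 2) * Pool.Agent.H466.HF.LamD f z) = XX f := rfl
    rw [hXX] at hcl
    simp only [hXX] at hne
    have hshift : (∀ s : ℂ, Lam f s = 0 → s.re = 1) ↔ (∀ s : ℂ, XX f s = 0 → s.re = 1 / 2) := by
      rw [XX_eq]
      constructor
      · intro h s hs
        have h1 := h _ ((mul_eq_zero.mp hs).resolve_left cc_ne)
        have : (s + 1 / 2 : ℂ).re = s.re + 1 / 2 := by simp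
        rw [this] at h1
        linarith
      · intro h s hs
        have h1 := h (s - 1 / 2) (by
          have e : s - 1 / 2 + 1 / 2 = s := by ring
          simp only [e, hs, mul_zero])
        have : (s - 1 / 2 : ℂ).re = s.re - 1 / 2 := by simp
        rw [this] at h1
        linarith
    refine ⟨hL, fun s hs => ?_, ?_⟩
    · have hs' : 1 < (s - 1 / 2 : ℂ).re := by
        have : (s - 1 / 2 : ℂ).re = s.re - 1 / 2 := by simp
        rw [this]; linarith
      have h1 := Pool.Agent.H466.HF.LL_series hf' hs'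
      have e1 : s - 1 / 2 - 1 / 2 = s - 1 := by ring
      have e2 : s - 1 / 2 + 1 / 2 = s := by ring
      rw [e1, e2] at h1
      rw [Lam_eq, h1]
      have hR := Pool.Agent.H466.HF.sqN_pos' (N := N)
      have hpi := Real.pi_pos
      have e3 : ((2 * Real.pi / Real.sqrt N : ℝ) : ℂ) ^ (-s) =
          ((Real.sqrt N / (2 * Real.pi) : ℝ) : ℂ) ^ s := by
        rw [Pool.Agent.H466.HF.cpow_exp (by positivity : 0 < 2 * Real.pi / Real.sqrt N),
          Pool.Agent.H466.HF.cpow_exp (by positivity : 0 < Real.sqrt N / (2 * Real.pi))]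
        congr 1
        rw [← inv_div (Real.sqrt N) (2 * Real.pi), Real.log_inv]
        push_cast
        ring
      have e4 : ∀ n : ℕ, (W388.lamf f n : ℂ) * (n : ℂ) ^ (-(s - 1 / 2)) = coef f n * (n : ℂ) ^ (-s) := by
        intro n
        unfold coef
        rcases eq_or_ne n 0 with hn | hn
        · rw [hn, W388.coeff_zero, (W388.heckeSeq_lamf hf').zero]
          simp
        · have hnc : (n : ℂ) ≠ 0 := by exact_mod_cast hn
          rw [W388.lamf_eq hf' n hn, mul_assoc, ← Complex.cpow_add _ _ hnc]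
          congr 2
          push_cast
          ring
      rw [e3, tsum_congr e4]
      ring
    · rw [hshift]
      constructor
      · intro h d n
        have h1 := Pool.Agent.H466.JE.of_rh hcl hne h d n
        have h2 := jensen_alt f hL d n
        exact h1.imp h2.1.mp h2.2.mp
      · intro h s hs
        refine Pool.Agent.H466.JE.rh_of hcl.diff (by simpa using hne 0) (fun d => ?_) hs
        have h2 := jensen_alt f hL d 0
        simp only [zero_add] at h2
        have h1 := h d 0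
        exact h1.imp h2.1.mpr h2.2.mpr
  · obtain ⟨C0, H⟩ := Pool.Agent.H466.JE.datum_jensen 2 (by norm_num) (θ := 0) (η := η) le_rfl
      (by norm_num) hη
    refine ⟨(1 / 4 + η) * Real.log (15 / 4) + C0, fun a b _ N _ f hf d n hd hn => ?_⟩
    have hL := hdiff a b N f hf
    obtain ⟨w, hf', hgood, hbad⟩ := isNewf hf
    have D := Pool.Agent.H466.HF.datum_newf hf' hgood hbad
    have hN : (0 : ℝ) < N := by exact_mod_cast Nat.pos_of_ne_zero (NeZero.ne N)
    have hd' : (0 : ℝ) < d := by exact_mod_cast hd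
    have hprod : ∏ j, (1 + ‖Pool.Agent.H466.HF.mu2 j‖) = 15 / 4 := by
      rw [Fin.prod_univ_two]
      unfold Pool.Agent.H466.HF.mu2
      rw [if_pos rfl, if_neg (by decide), norm_div, norm_div, norm_neg, norm_neg]
      norm_num
    have h1 := H (N : ℝ) _ _ _ _ D d n hd (by
      rw [hprod, Real.log_mul hN.ne' (by norm_num)]
      rw [Real.log_mul hN.ne' hd'.ne'] at hn
      have e : ((1 + 2 * 0) / 4 + η) * (Real.log N + Real.log (15 / 4) + ((2 : ℕ) : ℝ) / 2 * Real.log d) + C0 =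
          (1 / 4 + η) * (Real.log N + Real.log d) + ((1 / 4 + η) * Real.log (15 / 4) + C0) := by
        push_cast
        ring
      rw [e]
      exact hn)
    exact (jensen_alt f hL d n).2.mp (Pool.Agent.H466.JE.RR_J0 h1)

end Pool.Agent.Results.MP_553913_nt.JensenPolynomials
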