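import Pool.Agent.H454.PH.All
import Pool.Agent.H454.PF.EE
import Pool.Agent.H454.PF.GMM

set_option autoImplicit false

/-!
# Elliptic curves: real entire functions which are mapped to `Ξ_E`

The definitions (`LaguerrePolya`, `RealEntire`, `Operator`, `Chain`, `Rigid`, `HasRealPreimage`) are in
`Pool/Agent/H454/PH/Def.lean`: `Chain [T₁, …, T_n] X G` means `X = T₁ T₂ ⋯ T_n G`, where the `T_i` are multiplications by real polynomials
with real zeros, `φ(D)` (`φ` in the Laguerre-Pólya class), `Γ((z - b) D)` (`Γ` in the Laguerre-Pólya class with finitely many zeros in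
`[0, ∞)`) or arbitrary first order operators `p D + q` with real polynomial coefficients, `deg q ≤ deg p`.
-/

open Complex Filter Topology Polynomial MatrixGroups CongruenceSubgroup
open UpperHalfPlane hiding I
open scoped ComplexConjugate
open Pool.Agent.H454.PH (Rigid HasRealPreimage)

namespace Pool.Agent.Results.MP_553913_nt.LaguerrePolyaPreimages

/-- The coefficient `a_p` of `E : y² = x³ + a x + b` at a prime `p ∤ 2 (4a³ + 27b²)`: `p` minus the
number of pairs `(x, y)` modulo `p` with `y² ≡ x³ + a x + b (mod p)`. -/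
noncomputable def ap (a b : ℤ) (p : ℕ) : ℤ :=
  (p : ℤ) - (((Finset.range p ×ˢ Finset.range p).filter
    (fun xy : ℕ × ℕ => (p : ℤ) ∣ (xy.2 : ℤ) ^ 2 -
      ((xy.1 : ℤ) ^ 3 + a * (xy.1 : ℤ) + b))).card : ℤ)

/-- The `n`-th Fourier coefficient of `f`. -/
noncomputable def coef {N : ℕ} (f : CuspForm (Gamma0 N : Subgroup (GL (Fin 2) ℝ)) 2) (n : ℕ) : ℂ :=
  (qExpansion 1 f).coeff n

/-- `f ∈ S_2(Γ₀(N))` is the newform of the elliptic curve `E : y² = x³ + a x + b`: the Fourier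
coefficients `c(n)` of `f` are real with `c(1) = 1`, they satisfy the Hecke relations
`c(mn) = c(m) c(n)` for coprime `m`, `n` and `c(p^(j+2)) = c(p) c(p^(j+1)) - p c(p^j)` (without the
last term if `p ∣ N`), `f` is an eigenfunction of the Fricke involution:
`f(-1/(Nτ)) = -w N τ² f(τ)` with `w = ±1`, `c(p) = a_p(E)` for all primes `p ∤ 2 (4a³ + 27b²)`,
`|c(p)| ≤ 2 √p` for all primes `p ∤ N` (Hasse) and `c(p) = 0, 1, -1` for the primes `p ∣ N`.
By the modularity theorem such an `f` exists for every `E`, with `N` the conductor. -/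
structure IsFormOf (a b : ℤ) (N : ℕ) (f : CuspForm (Gamma0 N : Subgroup (GL (Fin 2) ℝ)) 2) :
    Prop where
  one : coef f 1 = 1
  real : ∀ n, (coef f n).im = 0
  mul : ∀ m n : ℕ, Nat.Coprime m n → coef f (m * n) = coef f m * coef f n
  pow : ∀ p j : ℕ, p.Prime → coef f (p ^ (j + 2)) = coef f p * coef f (p ^ (j + 1)) -
      (if p ∣ N then 0 else (p : ℂ) * coef f (p ^ j))
  fricke : ∃ w : ℝ, (w = 1 ∨ w = -1) ∧ ∀ τ τ' : ℍ, (τ' : ℂ) * ((N : ℂ) * (τ : ℂ)) = -1 →
    f τ' = -(w : ℂ) * (N : ℂ) * (τ : ℂ) ^ 2 * f τ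
  points : ∀ p : ℕ, p.Prime → ¬ (p : ℤ) ∣ 2 * (4 * a ^ 3 + 27 * b ^ 2) → coef f p = (ap a b p : ℂ)
  good : ∀ p : ℕ, p.Prime → ¬ p ∣ N → ‖coef f p‖ ≤ 2 * Real.sqrt p
  bad : ∀ p : ℕ, p.Prime → p ∣ N → coef f p = 0 ∨ coef f p = 1 ∨ coef f p = -1

/-- The completed `L`-function `Λ(E, s) = ∫_0^∞ f(i t/√N) t^(s-1) dt = N^(s/2) (2π)^(-s) Γ(s) L(E, s)`
(`ofComplex` is the identity on the upper half plane; Mathlib's Mellin transform). -/
noncomputable def Lam {N : ℕ} (f : CuspForm (Gamma0 N : Subgroup (GL (Fin 2) ℝ)) 2) (s : ℂ) : ℂ :=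
  mellin (fun t : ℝ => f (UpperHalfPlane.ofComplex (I * t / (Real.sqrt N : ℝ)))) s

/-- `Ξ(z) = κ Λ(E, 1 + i z)`. -/
noncomputable def Xi {N : ℕ} (f : CuspForm (Gamma0 N : Subgroup (GL (Fin 2) ℝ)) 2) (κ : ℂ) (z : ℂ) : ℂ :=
  κ * Lam f (1 + I * z)

/-- **Theorem.** Let `E : y² = x³ + a x + b` be an elliptic curve over `ℚ` with newform `f`, and `κ = 1` or `κ = i` such that
`Ξ(z) = κ Λ(E, 1 + i z)` is real on the real axis. `Ξ` is rigid: if `Ξ = T₁ ⋯ T_n G` and `G` has only finitely many non-real zeros, then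
all `T_i` are elementary (multiplications and affine changes of variable), and `P(z) G(z) = Ξ(a z + b)`; and the Riemann hypothesis
holds for `E` iff `Ξ = T₁ ⋯ T_n G` for some `G` with real zeros only. -/
theorem result : ∀ (a b : ℤ) (_hE : 4 * a ^ 3 + 27 * b ^ 2 ≠ 0) (N : ℕ) [NeZero N]
    (f : CuspForm (Gamma0 N : Subgroup (GL (Fin 2) ℝ)) 2) (_hf : IsFormOf a b N f),
    (∀ s : ℂ, 3 < s.re → Lam f s = (((2 * Real.pi / Real.sqrt N : ℝ) : ℂ)) ^ (-s) * (Gamma s * LSeries (coef f) s)) ∧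
    ∃ κ : ℂ, (κ = 1 ∨ κ = I) ∧ Rigid (Xi f κ) ∧
      ((∀ s : ℂ, Lam f s = 0 → s.re = 1) ↔ HasRealPreimage (Xi f κ)) := by
  intro a b _ N _ f hf
  obtain ⟨w, hw, hfr⟩ := hf.fricke
  obtain ⟨κ, hκ1, hκ2, hκ3⟩ : ∃ κ : ℂ, (κ = 1 ∨ κ = I) ∧ (w = 1 → κ = 1) ∧ (w = -1 → κ = I) := by
    rcases hw with h | h
    · exact ⟨1, Or.inl rfl, fun _ => rfl, fun h2 => by rw [h] at h2; norm_num at h2⟩
    · exact ⟨I, Or.inr rfl, fun h2 => by rw [h] at h2; norm_num at h2, fun _ => rfl⟩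
  have hMF := Pool.Agent.H113.PFE.t_EE N f hf.one hf.real w hw hfr κ hκ2 hκ3
  have hfull := Pool.Agent.H454.PF.full_M Pool.Agent.H878.PF.t_GMM hMF
  have hX : (Pool.Agent.N963.GN.Lt (fun u : ℝ => Pool.Agent.N963.GN.Km N 2
      (fun z => f (UpperHalfPlane.ofComplex z)) κ (u : ℂ))) = Xi f κ := by
    funext z
    rw [Pool.Agent.N348.GN.Lt_eq]
    unfold Xi Lam
    have : (((2 : ℕ) : ℂ) / 2 + I * z) = 1 + I * z := by norm_num
    rw [this]
  obtain ⟨h2, h3⟩ := Pool.Agent.H454.PH.full hfull hX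
  have hκ0 : κ ≠ 0 := by
    rcases hκ1 with h | h
    · rw [h]; exact one_ne_zero
    · rw [h]; exact I_ne_zero
  refine ⟨fun s hs => ?_, κ, hκ1, h2, ?_⟩
  · have h5 := Pool.Agent.N348.GN.mellin_F hMF (s := s) (by norm_num; exact hs)
    unfold Lam
    rw [h5, cpow_neg]
    have e : LSeries (fun n => (qExpansion 1 f).coeff n) s = LSeries (coef f) s := rfl
    rw [e]
    ring
  · have h5 : (∀ s : ℂ, Lam f s = 0 → s.re = 1) ↔ ∀ z, Xi f κ z = 0 → z.im = 0 := by
      constructor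
      · intro h z hz
        have h6 : Lam f (1 + I * z) = 0 := by
          rcases mul_eq_zero.1 hz with h7 | h7
          · exact absurd h7 hκ0
          · exact h7
        have h7 := h _ h6
        simp at h7
        exact h7
      · intro h s hs0
        have h6 : Xi f κ (-(I * (s - 1))) = 0 := by
          unfold Xi
          have e : 1 + I * -(I * (s - 1)) = s := by
            linear_combination (-(s - 1)) * I_sq
          rw [e, hs0, mul_zero]
        have h7 := h _ h6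
        simp at h7
        linarith
    rw [h5, h3]

end Pool.Agent.Results.MP_553913_nt.LaguerrePolyaPreimages
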