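import Pool.Agent.H564.QS.F5
import Pool.Agent.H564.QH.D5
import Pool.Graph.R_seed8.Y19.QT.Fin

/-!
# The heat flow (de Bruijn - Newman flow) of the L-functions of almost all quadratic twists

`E : y² = x³ + a x + b` is an elliptic curve over `ℚ`, and `E_d : y² = x³ + a d² x + b d³` are its
quadratic twists.  `f_d ∈ S_2(Γ₀(N_d))` is the newform of `E_d` (modularity theorem), `N_d` the
conductor.  The completed function `Λ(E_d, s)` is the value at `t = 0` of the flow
`Λ_t(s) = ∫ f_d(i e^u / √N_d) e^(t u² + s u) du`, which solves the backward heat equation; for `t > 0`,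
`√(4πt) Λ_t(s) = ∫ Λ_0(s + v) e^(-v²/(4t)) dv`.  The Riemann hypothesis for `L(E_d, s)` says that all
the zeros of `Λ_t` lie on `Re s = 1` for `t = 0` (equivalently, for all `t > 0`).  For a single curve
this is known for `t` larger than about `1 / log (N (1 + |Im s|)²)` only.

We prove, unconditionally and on every scale `ω` between `log log X` and `(1/2) log X`: for all squarefree
`d`, `|d| ≤ X`, outside an exceptional set of at most `C X e^(-ω)` integers, with
`h(y) = ω + log (2 + |y|)` and constants which do not depend on `ω`,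

* the zeros of `Λ(E_d, s)` are at most `K' h(Im s) / log X` away from the line `Re s = 1`;
* their multiplicities are at most `K' h(Im s) + 2`; in particular the analytic rank of `E_d` is at most
  `K' (ω + log 2) + 2`: the number of the `d` with analytic rank `≥ r` decays exponentially in `r` for
  `r ≥ C log log X`;
* the zeros of the derivatives of `Λ(E_d, s)` of order at least `K' h(Im s)` are simple and on the line;
* the zeros of `Λ_t` are simple and on the line for `K' h(Im s) / (log X)² ≤ t ≤ 1`, that is (for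
  `ω = K log log X`), down to the natural scale `1 / (log X)²` of the flow up to a factor `log log X`;
* for such `t ≤ c / log X` the zeros of `Λ_t` are almost equally spaced, with the spacing
  `2π / log (N_d (1 + |Im s|)²)`.

With `ω = c log X` the exceptional set is `O(X^(1-c))`, and the zeros of `Λ_t` with `|Im s| ≤ X^c` are simple and
on the line for `η / log X ≤ t ≤ 1`. Outside a set of size `O(X^(1-c))` all the zeros are on the line for
`t ≥ (1 - c) / log N_d`, that is, the de Bruijn - Newman constant of `E_d` is at most `(1 - c) / log N_d`.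

The proof: (1) the `L`-functions of the family constructed in the library from the twists of finitely
many newforms are those of the newforms `f_d` of the curves `E_d` (a multiplicity one theorem, by
Liouville's theorem); (2) mollified mean values: for all but `C X e^(-ω)` of the `d`,
`log |L(E_d, s)|` is `O(h(Im s))` to the right of the line at distance a constant times `h(Im s) / log X`; (3) a deterministic analysis of the Gaussian transform: such
bounds at all scales, and a zero free box, put the zeros of `Λ_t` on the line and determine the speed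
of the phase of the two halves of the Gaussian integral.
-/

open Complex MatrixGroups CongruenceSubgroup
open UpperHalfPlane hiding I

set_option autoImplicit false

namespace Pool.Agent.Results.MP_553913_nt.QuadraticTwistHeatFlow

/-- The coefficient `a_p` of `E : y² = x³ + a x + b` at a prime `p ∤ 2 (4a³ + 27b²)`: `p` minus the
number of pairs `(x, y)` modulo `p` with `y² = x³ + a x + b`. -/
noncomputable def ap (a b : ℤ) (p : ℕ) : ℤ :=
  (p : ℤ) - Nat.card {x : ZMod p × ZMod p //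
    x.2 ^ 2 = x.1 ^ 3 + (a : ZMod p) * x.1 + (b : ZMod p)}

/-- The `n`-th Fourier coefficient of `f`. -/
noncomputable def coef {N : ℕ} (f : CuspForm (Gamma0 N : Subgroup (GL (Fin 2) ℝ)) 2) (n : ℕ) : ℂ :=
  (qExpansion 1 f).coeff n

/-- `f ∈ S_2(Γ₀(N))`, `N ≥ 1`, is the newform of the elliptic curve `E : y² = x³ + a x + b`, with its
standard properties: the Fourier coefficients `c(n)` of `f` are real with `c(1) = 1`, they satisfy the
Hecke relations `c(mn) = c(m) c(n)` for coprime `m`, `n` and `c(p^(j+2)) = c(p) c(p^(j+1)) - p c(p^j)`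
(without the last term if `p ∣ N`), the bound `|c(p)| ≤ 2√p` for `p ∤ N` (Hasse), and `c(p) = 0, 1, -1`
for `p ∣ N`; `f` is an eigenfunction of the Fricke involution: `f(-1/(Nτ)) = -w N τ² f(τ)` with
`w = ±1`; for all primes `p ∤ 2 (4a³ + 27b²)` one has `p ∤ N` and `c(p) = a_p(E)`.
By the modularity theorem such an `f` exists for every `E`, with `N` the conductor of `E`. -/
structure IsFormOf (a b : ℤ) (N : ℕ) (f : CuspForm (Gamma0 N : Subgroup (GL (Fin 2) ℝ)) 2) :
    Prop where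
  pos : 0 < N
  one : coef f 1 = 1
  real : ∀ n, (coef f n).im = 0
  mul : ∀ m n : ℕ, Nat.Coprime m n → coef f (m * n) = coef f m * coef f n
  pow : ∀ p j : ℕ, p.Prime → coef f (p ^ (j + 2)) = coef f p * coef f (p ^ (j + 1)) -
      (if p ∣ N then 0 else (p : ℂ) * coef f (p ^ j))
  good : ∀ p : ℕ, p.Prime → ¬ p ∣ N → ‖coef f p‖ ≤ 2 * Real.sqrt p
  bad : ∀ p : ℕ, p.Prime → p ∣ N → coef f p = 0 ∨ coef f p = 1 ∨ coef f p = -1
  fricke : ∃ w : ℝ, (w = 1 ∨ w = -1) ∧ ∀ τ τ' : ℍ, (τ' : ℂ) * ((N : ℂ) * (τ : ℂ)) = -1 →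
    f τ' = -(w : ℂ) * (N : ℂ) * (τ : ℂ) ^ 2 * f τ
  points : ∀ p : ℕ, p.Prime → ¬ (p : ℤ) ∣ 2 * (4 * a ^ 3 + 27 * b ^ 2) →
    ¬ p ∣ N ∧ coef f p = (ap a b p : ℂ)

/-- The heat flow `Λ_t(s) = ∫ f(i e^u / √N) e^(t u² + s u) du` of the completed `L`-function
(`ofComplex` is the identity on the upper half plane). -/
noncomputable def Lam {N : ℕ} (f : CuspForm (Gamma0 N : Subgroup (GL (Fin 2) ℝ)) 2) (t : ℝ)
    (s : ℂ) : ℂ :=
  ∫ u : ℝ, f (ofComplex (((Real.exp u / Real.sqrt N : ℝ) : ℂ) * I)) *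
    cexp ((t : ℂ) * (u : ℂ) ^ 2 + s * u)

/-! ### Translation -/

theorem Lam_eq {N : ℕ} (f : CuspForm (Gamma0 N : Subgroup (GL (Fin 2) ℝ)) 2) (t : ℝ) (s : ℂ) :
    Lam f t s = Pool.Agent.H466.HF.LL (Pool.Agent.H466.HF.gE f) t (s - 1) := by
  unfold Lam Pool.Agent.H466.HF.LL Pool.Agent.H466.HF.gE Pool.Agent.H466.HF.PhE
  refine MeasureTheory.integral_congr_ae (Filter.Eventually.of_forall fun u => ?_)
  simp only
  have e : cexp ((t : ℂ) * (u : ℂ) ^ 2 + s * u) =
      ((Real.exp u : ℝ) : ℂ) * cexp ((t : ℂ) * (u : ℂ) ^ 2 + (s - 1) * u) := by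
    rw [Complex.ofReal_exp, ← Complex.exp_add]
    congr 1
    ring
  rw [e]
  ring

theorem IsFormOf.toQT {a b : ℤ} {N : ℕ} {f : CuspForm (Gamma0 N : Subgroup (GL (Fin 2) ℝ)) 2}
    (h : IsFormOf a b N f) : Pool.Agent.Y19.QT.IsFormOf a b N f where
  pos := h.pos
  one := h.one
  real := h.real
  mul := h.mul
  pow := h.pow
  good := h.good
  bad := fun p hp hpN => by
    have h1 := h.bad p hp hpN
    unfold coef at h1
    unfold Pool.Agent.Y19.QT.coef
    rcases h1 with h | h | h <;> simp [h]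
  fricke := h.fricke
  points := h.points

/-- the basic properties of the flow -/
theorem flow_facts {a b : ℤ} {N : ℕ} {f : CuspForm (Gamma0 N : Subgroup (GL (Fin 2) ℝ)) 2}
    (h : IsFormOf a b N f) :
    (∀ t : ℝ, Differentiable ℂ (Lam f t)) ∧
    (∀ s : ℂ, 3 / 2 < s.re → Lam f 0 s = ((Real.sqrt N / (2 * Real.pi) : ℝ) : ℂ) ^ s * Gamma s *
      ∑' n : ℕ, coef f n * (n : ℂ) ^ (-s)) ∧
    (∀ (t : ℝ) (s : ℂ), 0 < t → ((Real.sqrt (4 * Real.pi * t) : ℝ) : ℂ) * Lam f t s =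
      ∫ v : ℝ, Lam f 0 (s + v) * ((Real.exp (-v ^ 2 / (4 * t)) : ℝ) : ℂ)) := by
  obtain ⟨w, hf', hgood, hbad⟩ := Pool.Agent.H564.QH.newf_of h.toQT
  have : NeZero N := ⟨h.pos.ne'⟩
  obtain ⟨A, c, k⟩ := Pool.Agent.H466.HF.gE_kern f hf'
  have hfun : ∀ t : ℝ, Lam f t = fun s =>
      Pool.Agent.H466.HF.LL (Pool.Agent.H466.HF.gE f) t (s - 1) :=
    fun t => funext fun s => Lam_eq f t s
  refine ⟨fun t => ?_, fun s hs => ?_, fun t s ht => ?_⟩
  · rw [hfun]
    exact (k.differentiable t).comp (by fun_prop)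
  · have hs' : 1 < (s - 1 / 2 : ℂ).re := by
      have : (s - 1 / 2 : ℂ).re = s.re - 1 / 2 := by simp
      rw [this]; linarith
    have h1 := Pool.Agent.H466.HF.LL_series hf' hs'
    have e1 : s - 1 / 2 - 1 / 2 = s - 1 := by ring
    have e2 : s - 1 / 2 + 1 / 2 = s := by ring
    rw [e1, e2] at h1
    rw [Lam_eq, h1]
    have hR := Pool.Agent.H466.HF.sqN_pos' (N := N)
    have hpi := Real.pi_pos
    have e3 : ((2 * Real.pi / Real.sqrt N : ℝ) : ℂ) ^ (-s) =
        ((Real.sqrt N / (2 * Real.pi) : ℝ) : ℂ) ^ s := by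
      rw [Pool.Agent.H466.HF.cpow_exp (by positivity : 0 < 2 * Real.pi / Real.sqrt N),
        Pool.Agent.H466.HF.cpow_exp (by positivity : 0 < Real.sqrt N / (2 * Real.pi))]
      congr 1
      rw [← inv_div (Real.sqrt N) (2 * Real.pi), Real.log_inv]
      push_cast
      ring
    have e4 : ∀ n : ℕ, (W388.lamf f n : ℂ) * (n : ℂ) ^ (-(s - 1 / 2)) = coef f n * (n : ℂ) ^ (-s) := by
      intro n
      unfold coef
      rcases eq_or_ne n 0 with hn | hn
      · rw [hn, W388.coeff_zero, (W388.heckeSeq_lamf hf').zero]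
        simp
      · have hnc : (n : ℂ) ≠ 0 := by exact_mod_cast hn
        rw [W388.lamf_eq hf' n hn, mul_assoc, ← Complex.cpow_add _ _ hnc]
        congr 2
        push_cast
        ring
    rw [e3, tsum_congr e4]
    ring
  · have h1 := k.heat_eq ht (s - 1)
    have e1 : Real.pi * (4 * t) = 4 * Real.pi * t := by ring
    rw [e1] at h1
    rw [Lam_eq, ← h1]
    unfold Pool.Agent.H466.HF.heat
    refine MeasureTheory.integral_congr_ae (Filter.Eventually.of_forall fun v => ?_)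
    simp only
    rw [Lam_eq]
    have e2 : s - 1 + v = s + v - 1 := by ring
    rw [e2]

theorem deriv_Lam {a b : ℤ} {N : ℕ} {f : CuspForm (Gamma0 N : Subgroup (GL (Fin 2) ℝ)) 2}
    (h : IsFormOf a b N f) (t : ℝ) (s : ℂ) : deriv (Lam f t) s =
      deriv (Pool.Agent.H466.HF.LL (Pool.Agent.H466.HF.gE f) t) (s - 1) := by
  obtain ⟨w, hf', hgood, hbad⟩ := Pool.Agent.H564.QH.newf_of h.toQT
  have : NeZero N := ⟨h.pos.ne'⟩
  obtain ⟨A, c, k⟩ := Pool.Agent.H466.HF.gE_kern f hf'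
  have hfun : Lam f t = fun s => Pool.Agent.H466.HF.LL (Pool.Agent.H466.HF.gE f) t (s - 1) :=
    funext fun s => Lam_eq f t s
  rw [hfun]
  have h6 : HasDerivAt (fun s => Pool.Agent.H466.HF.LL (Pool.Agent.H466.HF.gE f) t (s - 1))
      (deriv (Pool.Agent.H466.HF.LL (Pool.Agent.H466.HF.gE f) t) (s - 1)) s :=
    ((k.differentiable t (s - 1)).hasDerivAt).comp_sub_const s 1
  exact h6.deriv

theorem iter_Lam {N : ℕ} (f : CuspForm (Gamma0 N : Subgroup (GL (Fin 2) ℝ)) 2) (n : ℕ) (t : ℝ)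
    (s : ℂ) : iteratedDeriv n (Lam f t) s =
      iteratedDeriv n (Pool.Agent.H466.HF.LL (Pool.Agent.H466.HF.gE f) t) (s - 1) := by
  have hfun : Lam f t = fun s => Pool.Agent.H466.HF.LL (Pool.Agent.H466.HF.gE f) t (s - 1) :=
    funext fun s => Lam_eq f t s
  rw [hfun]
  exact congrFun (iteratedDeriv_comp_sub_const n
    (Pool.Agent.H466.HF.LL (Pool.Agent.H466.HF.gE f) t) 1) s

/-- **Main theorem.** Let `E : y² = x³ + a x + b` be an elliptic curve over `ℚ` and let
`f_d ∈ S_2(Γ₀(N_d))` be the newform of `E_d : y² = x³ + a d² x + b d³` (`d ≠ 0`).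

(0) The functions `Λ_t = Lam (f d) t` are entire; `Λ_0(s) = (√N / 2π)^s Γ(s) ∑ c(n) n^(-s) = Λ(E_d, s)`
for `Re s > 3/2`; for `t > 0`, `√(4πt) Λ_t(s) = ∫ Λ_0(s + v) e^(-v²/(4t)) dv`.

(A) For every `0 < η ≤ 1` there are `C`, `K'` and `c > 0` such that for all `X ≥ 3`, every `ω` with
`log log X ≤ ω ≤ (log X) / 2` and all squarefree `d` with `|d| ≤ X` outside a set of at most `C X e^(-ω)`
integers:

* every zero `s` of `Λ_0 = Λ(E_d, ·)` has `|Re s - 1| log X ≤ K' (ω + log (2 + |Im s|))`;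
* at every `s` some derivative of `Λ_0` of order at most `K' (ω + log (2 + |Im s|)) + 2` is not zero;
* for all `n` every zero `s` of the `n`-th derivative of `Λ_0` with `K' (ω + log (2 + |Im s|)) ≤ n` is
  simple and has `Re s = 1`;
* every zero `s` of `Λ_t`, `0 < t ≤ 1`, with `K' (ω + log (2 + |Im s|)) ≤ t (log X)²` is simple
  and has `Re s = 1`;
* for all `t ≤ c / log X`, `t ≤ 1`, and `y` with `K' (ω + log (2 + |y|)) ≤ t (log X)²` the zeros
  of `Λ_t` with height in `[y - 1, y + 1]` are almost equally spaced: with `g = 2π / log (N_d (1 + |y|)²)`,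
  the heights of different zeros differ by at least `(1 - η) g`, and every interval in `[y - 1, y + 1]`
  of length at least `(1 + η) g` contains the height of a zero.

(B) For every `η > 0` there are `C` and `c > 0` such that for all `X ≥ 3` and all squarefree `d` with
`|d| ≤ X` outside a set of at most `C X^(1-c)` integers: every zero `s` of `Λ_t`,
`η / log X ≤ t ≤ 1`, with `|Im s| ≤ X^c` is simple and has `Re s = 1`; and all the zeros of `Λ_t` are on
the line `Re s = 1` for all `t ≥ (1 - c) / log N_d`. -/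
theorem result (a b : ℤ) (hE : 4 * a ^ 3 + 27 * b ^ 2 ≠ 0) (N : ℤ → ℕ)
    (f : ∀ d : ℤ, CuspForm (Gamma0 (N d) : Subgroup (GL (Fin 2) ℝ)) 2)
    (hf : ∀ d : ℤ, d ≠ 0 → IsFormOf (a * d ^ 2) (b * d ^ 3) (N d) (f d)) :
    (∀ d : ℤ, d ≠ 0 → (∀ t : ℝ, Differentiable ℂ (Lam (f d) t)) ∧
      (∀ s : ℂ, 3 / 2 < s.re → Lam (f d) 0 s =
        ((Real.sqrt (N d) / (2 * Real.pi) : ℝ) : ℂ) ^ s * Gamma s *
          ∑' n : ℕ, coef (f d) n * (n : ℂ) ^ (-s)) ∧
      (∀ (t : ℝ) (s : ℂ), 0 < t → ((Real.sqrt (4 * Real.pi * t) : ℝ) : ℂ) * Lam (f d) t s =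
        ∫ v : ℝ, Lam (f d) 0 (s + v) * ((Real.exp (-v ^ 2 / (4 * t)) : ℝ) : ℂ))) ∧
    (∀ η : ℝ, 0 < η → η ≤ 1 → ∃ C K' c : ℝ, 0 < c ∧ ∀ (X : ℕ) (ω : ℝ), 3 ≤ X →
      Real.log (Real.log X) ≤ ω → ω ≤ Real.log X / 2 → ∃ S : Finset ℤ,
      (S.card : ℝ) ≤ C * X * Real.exp (-ω) ∧
      ∀ d : ℤ, Squarefree d → |d| ≤ X → d ∉ S →
        (∀ s : ℂ, Lam (f d) 0 s = 0 →
          |s.re - 1| * Real.log X ≤ K' * (ω + Real.log (2 + |s.im|))) ∧
        (∀ s : ℂ, ∃ k : ℕ, (k : ℝ) ≤ K' * (ω + Real.log (2 + |s.im|)) + 2 ∧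
          iteratedDeriv k (Lam (f d) 0) s ≠ 0) ∧
        (∀ (n : ℕ) (s : ℂ), iteratedDeriv n (Lam (f d) 0) s = 0 →
          K' * (ω + Real.log (2 + |s.im|)) ≤ n →
          s.re = 1 ∧ iteratedDeriv (n + 1) (Lam (f d) 0) s ≠ 0) ∧
        (∀ (t : ℝ) (s : ℂ), 0 < t → t ≤ 1 → Lam (f d) t s = 0 →
          K' * (ω + Real.log (2 + |s.im|)) ≤ t * Real.log X ^ 2 →
          s.re = 1 ∧ deriv (Lam (f d) t) s ≠ 0) ∧
        (∀ t y : ℝ, 0 < t → t ≤ 1 → t * Real.log X ≤ c →
          K' * (ω + Real.log (2 + |y|)) ≤ t * Real.log X ^ 2 →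
          (∀ s s' : ℂ, |s.im - y| ≤ 1 → |s'.im - y| ≤ 1 → Lam (f d) t s = 0 → Lam (f d) t s' = 0 →
            s ≠ s' → (1 - η) * (2 * Real.pi / Real.log (N d * (1 + |y|) ^ 2)) ≤ |s.im - s'.im|) ∧
          (∀ u v : ℝ, y - 1 ≤ u → v ≤ y + 1 →
            (1 + η) * (2 * Real.pi / Real.log (N d * (1 + |y|) ^ 2)) ≤ v - u →
            ∃ s : ℂ, Lam (f d) t s = 0 ∧ u ≤ s.im ∧ s.im ≤ v))) ∧
    (∀ η : ℝ, 0 < η → ∃ C c : ℝ, 0 < c ∧ ∀ X : ℕ, 3 ≤ X → ∃ S : Finset ℤ,
      (S.card : ℝ) ≤ C * (X : ℝ) ^ (1 - c) ∧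
      ∀ d : ℤ, Squarefree d → |d| ≤ X → d ∉ S →
        (∀ (t : ℝ) (s : ℂ), η / Real.log X ≤ t → t ≤ 1 → |s.im| ≤ (X : ℝ) ^ c →
          Lam (f d) t s = 0 → s.re = 1 ∧ deriv (Lam (f d) t) s ≠ 0) ∧
        (∀ (t : ℝ) (s : ℂ), (1 - c) / Real.log (N d) ≤ t → Lam (f d) t s = 0 → s.re = 1)) := by
  have hf' : ∀ d : ℤ, d ≠ 0 → Pool.Agent.Y19.QT.IsFormOf (a * d ^ 2) (b * d ^ 3) (N d) (f d) :=
    fun d hd => (hf d hd).toQT
  obtain ⟨Q, lam, ⟨T⟩, hQ, hlam⟩ := Pool.Agent.Y19.QT.hasTwists_of a b hE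
    (fun g hg => ⟨N g, f g, hf' g hg⟩)
  have him : ∀ s : ℂ, (s - 1 : ℂ).im = s.im := fun s => by simp
  have hre : ∀ s : ℂ, (s - 1 : ℂ).re = s.re - 1 := fun s => by simp
  have hmem : ∀ (X : ℕ) (d : ℤ), Squarefree d → |d| ≤ X → d ∈ Pool.Agent.Y19.QT.sqf X :=
    fun X d h1 h2 => Pool.Agent.Y19.QT.mem_sqf.2 ⟨h2, h1⟩
  refine ⟨fun d hd => flow_facts (hf d hd), fun η hη hη1 => ?_, fun η hη => ?_⟩
  · obtain ⟨C, K', c, hc, H⟩ := Pool.Agent.H564.QS.laws_all T hQ hlam N f hf' hη hη1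
    refine ⟨C, max K' 0, c, hc, fun X ω hX hω1 hω2 => ?_⟩
    have hX0 : (0 : ℝ) < X := by exact_mod_cast (by omega : 0 < X)
    have hl1 := Pool.Agent.H564.QH.one_le_logX hX
    have hω0 : 0 ≤ ω := (Real.log_nonneg hl1).trans hω1
    have hU1 : Real.log X ≤ Real.exp ω := (Real.log_le_iff_le_exp (by linarith)).1 hω1
    have hU2 : Real.exp ω ≤ Real.sqrt X := by
      rw [← Real.exp_log (Real.sqrt_pos.2 hX0), Real.exp_le_exp, Real.log_sqrt hX0.le]
      exact hω2
    have hlo : ∀ y : ℝ, Pool.Agent.H564.QS.lo (Real.exp ω) y = ω + Real.log (2 + |y|) := fun y => by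
      unfold Pool.Agent.H564.QS.lo
      rw [Real.log_exp]
    have hpos : ∀ y : ℝ, 0 ≤ ω + Real.log (2 + |y|) := fun y => by
      have := Real.log_nonneg (x := 2 + |y|) (by linarith [abs_nonneg y])
      linarith
    have hmax : ∀ y : ℝ, K' * (ω + Real.log (2 + |y|)) ≤ max K' 0 * (ω + Real.log (2 + |y|)) := fun y =>
      mul_le_mul_of_nonneg_right (le_max_left _ _) (hpos y)
    obtain ⟨S, -, hS, H1⟩ := H X (Real.exp ω) hX hU1 hU2
    refine ⟨S, by rw [Real.exp_neg, ← div_eq_mul_inv]; exact hS, fun d hsq hdX hdS => ?_⟩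
    obtain ⟨hst, hder, h1, h2⟩ := H1 d (hmem X d hsq hdX) hdS
    simp only [hlo] at hst hder h1 h2
    have hder' : ∀ (n : ℕ) (s : ℂ), iteratedDeriv n (Lam (f d) 0) s = 0 →
        max K' 0 * (ω + Real.log (2 + |s.im|)) ≤ n →
        s.re = 1 ∧ iteratedDeriv (n + 1) (Lam (f d) 0) s ≠ 0 := fun n s hz hn => by
      rw [iter_Lam] at hz ⊢
      have h3 := hder n (s - 1) hz (by rw [him]; exact (hmax _).trans hn)
      rw [hre] at h3
      exact ⟨by linarith [h3.1], h3.2⟩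
    refine ⟨fun s hz => ?_, fun s => ?_, hder', fun t s ht0 ht1 hz hle => ?_,
      fun t y ht0 ht1 htc hle => ?_⟩
    · have h3 := hst (s - 1) (by rw [← Lam_eq]; exact hz)
      rw [hre, him] at h3
      exact h3.trans (hmax _)
    · have hn0 : 0 ≤ max K' 0 * (ω + Real.log (2 + |s.im|)) := mul_nonneg (le_max_right _ _) (hpos _)
      have hn := Nat.le_ceil (max K' 0 * (ω + Real.log (2 + |s.im|)))
      have hn2 := Nat.ceil_lt_add_one hn0
      by_cases h0 : iteratedDeriv ⌈max K' 0 * (ω + Real.log (2 + |s.im|))⌉₊ (Lam (f d) 0) s = 0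
      · refine ⟨⌈max K' 0 * (ω + Real.log (2 + |s.im|))⌉₊ + 1, ?_, (hder' _ s h0 hn).2⟩
        push_cast
        linarith
      · exact ⟨_, by linarith, h0⟩
    · have h3 := h1 t (s - 1) ht0 ht1 (by rw [← Lam_eq]; exact hz) (by rw [him]; exact (hmax _).trans hle)
      rw [hre] at h3
      rw [deriv_Lam (hf d hsq.ne_zero)]
      exact ⟨by linarith [h3.1], h3.2⟩
    · obtain ⟨h3, h4⟩ := h2 t y ht0 ht1 ((hmax _).trans hle) htc
      refine ⟨fun s s' hs hs' hz hz' hne => ?_, fun u v hu hv huv => ?_⟩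
      · have h5 := h3 (s - 1) (s' - 1) (by rw [him]; exact hs) (by rw [him]; exact hs')
          (by rw [← Lam_eq]; exact hz) (by rw [← Lam_eq]; exact hz')
          (fun h => hne (sub_left_injective h))
        rwa [him, him] at h5
      · obtain ⟨z, hz, hu', hv'⟩ := h4 u v hu hv huv
        refine ⟨z + 1, ?_, by simpa using hu', by simpa using hv'⟩
        rw [Lam_eq, add_sub_cancel_right]
        exact hz
  · obtain ⟨C, c, hc, H⟩ := Pool.Agent.H564.QH.coarse_all T hQ hlam N f hf' hη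
    refine ⟨C, c, hc, fun X hX => ?_⟩
    obtain ⟨S, -, hS, H1⟩ := H X hX
    refine ⟨S, hS, fun d hsq hdX hdS => ?_⟩
    obtain ⟨h1, h2⟩ := H1 d (hmem X d hsq hdX) hdS
    refine ⟨fun t s ht0 ht1 hs hz => ?_, fun t s ht hz => ?_⟩
    · have h3 := h1 t (s - 1) ht0 ht1 (by rw [him]; exact hs) (by rw [← Lam_eq]; exact hz)
      rw [hre] at h3
      rw [deriv_Lam (hf d hsq.ne_zero)]
      exact ⟨by linarith [h3.1], h3.2⟩
    · have h3 := h2 t (s - 1) ht (by rw [← Lam_eq]; exact hz)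
      rw [hre] at h3
      linarith

end Pool.Agent.Results.MP_553913_nt.QuadraticTwistHeatFlow
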